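import Pool.Agent.Lib.MP_6bc78b_nt.MS.GL.Iface
import Pool.Agent.Lib.MP_6bc78b_nt.MS.QZ.H17.Mor

/-! Module MRB of project GL: the moments of the normalized real part with Montgomery's weight. -/

set_option autoImplicit false

open Complex Filter Topology MeasureTheory

namespace Pool.Agent.Lib.MP_6bc78b_nt.MS.GL.H93

open Pool.Agent.Lib.MP_6bc78b_nt.MS Pool.Agent.Lib.MP_6bc78b_nt.MS.P1
open Pool.Agent.Lib.MP_6bc78b_nt.MS.QZ Pool.Agent.Lib.MP_6bc78b_nt.MS.QZ.H17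

lemma re_mul_re_pow_eq (w z : ℂ) (k : ℕ) :
    w.re * z.re ^ k = (1 / 2 : ℝ) ^ k * ∑ p ∈ Finset.HasAntidiagonal.antidiagonal k,
      (k.choose p.1 : ℝ) * (w * (z ^ p.1 * (starRingEnd ℂ) z ^ p.2)).re := by
  have h1 : ((z.re : ℝ) : ℂ) = (1 / 2 : ℂ) * (z + (starRingEnd ℂ) z) := by
    rw [Complex.add_conj]; push_cast; ring
  have h2 : w * ((z.re ^ k : ℝ) : ℂ) = (1 / 2 : ℂ) ^ k *
      ∑ p ∈ Finset.HasAntidiagonal.antidiagonal k,
      (k.choose p.1 : ℂ) * (w * (z ^ p.1 * (starRingEnd ℂ) z ^ p.2)) := by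
    push_cast
    rw [h1, mul_pow, Commute.add_pow' (Commute.all _ _), Finset.mul_sum, Finset.mul_sum,
      Finset.mul_sum]
    refine Finset.sum_congr rfl fun p _ => ?_
    simp only [nsmul_eq_mul]
    ring
  have h3 := congrArg Complex.re h2
  rw [Complex.re_mul_ofReal] at h3
  rw [h3]
  have h4 : ((1 / 2 : ℂ) ^ k) = (((1 / 2 : ℝ) ^ k : ℝ) : ℂ) := by push_cast; ring
  rw [h4, Complex.re_ofReal_mul, Complex.re_sum]
  congr 1
  refine Finset.sum_congr rfl fun p _ => ?_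
  have h5 : ((k.choose p.1 : ℕ) : ℂ) = (((k.choose p.1 : ℕ) : ℝ) : ℂ) := by push_cast; rfl
  rw [h5, Complex.re_ofReal_mul]

/-- the mean of `Re BB * X0 ^ k` -/
theorem mrb_aux (h1 : MobStatement) (h2 : ZfacStatement) (lam : ℝ) (k : ℕ) (hl : 0 < lam)
    (hl1 : lam < 1) : Tendsto (fun T : ℝ =>
      (∑ᶠ γ ∈ zset T, (mz γ : ℝ) * wt T γ * ((BB lam T (1 / 2 + γ * I)).re * X0 T γ ^ k)) /
        (cG T * Real.log T)) atTop (𝓝 (-(lam / 6) * gm k)) := by
  obtain ⟨-, -, -, -, -, -, hfin⟩ := h2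
  have hlim : Tendsto (fun T : ℝ => ∑ p ∈ Finset.HasAntidiagonal.antidiagonal k,
      ((-1 : ℝ) ^ k * (1 / 2 : ℝ) ^ k * Real.sqrt 2 ^ k * (k.choose p.1 : ℝ)) *
      ((∑ᶠ γ ∈ zset T, (mz γ : ℝ) * wt T γ * (BB lam T (1 / 2 + γ * I) *
        (P0 T γ ^ p.1 * (starRingEnd ℂ) (P0 T γ) ^ p.2)).re) /
        (cG T * Real.log T * Real.sqrt (ll T) ^ (p.1 + p.2)))) atTop
        (𝓝 (-(lam / 6) * gm k)) := by
    rw [← gm_eq k, Finset.mul_sum]
    refine tendsto_finsetSum _ fun p _ => ?_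
    have := (h1 lam p.1 p.2 hl hl1).const_mul
      ((-1 : ℝ) ^ k * (1 / 2 : ℝ) ^ k * Real.sqrt 2 ^ k * (k.choose p.1 : ℝ))
    convert this using 2
    ring
  refine hlim.congr' ?_
  filter_upwards [ll_tendsto.eventually_gt_atTop 0] with T hT
  have hsq : Real.sqrt (ll T) = Real.sqrt 2 * Real.sqrt (ll T / 2) := by
    rw [← Real.sqrt_mul (by norm_num)]; congr 1; ring
  have hs0 : 0 < Real.sqrt (ll T / 2) := Real.sqrt_pos.mpr (by linarith)
  have hs2 : 0 < Real.sqrt 2 := Real.sqrt_pos.mpr (by norm_num)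
  have key : ∀ γ : ℝ, (mz γ : ℝ) * wt T γ * ((BB lam T (1 / 2 + γ * I)).re * X0 T γ ^ k) =
      ∑ p ∈ Finset.HasAntidiagonal.antidiagonal k, ((-1 : ℝ) ^ k * (1 / 2 : ℝ) ^ k *
        (k.choose p.1 : ℝ) / Real.sqrt (ll T / 2) ^ k) *
        ((mz γ : ℝ) * wt T γ * (BB lam T (1 / 2 + γ * I) *
          (P0 T γ ^ p.1 * (starRingEnd ℂ) (P0 T γ) ^ p.2)).re) := by
    intro γ
    have h0 : (BB lam T (1 / 2 + γ * I)).re * X0 T γ ^ k =
        (-1) ^ k * ((BB lam T (1 / 2 + γ * I)).re * (P0 T γ).re ^ k) /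
          Real.sqrt (ll T / 2) ^ k := by
      unfold X0
      rw [div_pow, neg_pow]
      ring
    rw [h0, re_mul_re_pow_eq, Finset.mul_sum, Finset.mul_sum, Finset.sum_div,
      Finset.mul_sum]
    refine Finset.sum_congr rfl fun p _ => ?_
    ring
  rw [finsum_mem_eq_finite_toFinset_sum _ (hfin T)]
  rw [Finset.sum_congr rfl (fun γ _ => key γ), Finset.sum_comm, Finset.sum_div]
  refine Finset.sum_congr rfl fun p hp => ?_
  rw [Finset.HasAntidiagonal.mem_antidiagonal] at hp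
  rw [← Finset.mul_sum, finsum_mem_eq_finite_toFinset_sum _ (hfin T), hp, hsq, mul_pow]
  have hA : Real.sqrt 2 ^ k ≠ 0 := pow_ne_zero _ hs2.ne'
  have hB : Real.sqrt (ll T / 2) ^ k ≠ 0 := pow_ne_zero _ hs0.ne'
  generalize (∑ i ∈ (hfin T).toFinset, (mz i : ℝ) * wt T i * (BB lam T (1 / 2 + i * I) *
    (P0 T i ^ p.1 * (starRingEnd ℂ) (P0 T i) ^ p.2)).re) = Z
  field_simp

/-- MRB. -/
theorem mrb (h1 : MorStatement) (h2 : MobStatement) (h3 : ZfacStatement) : MrbStatement := by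
  intro lam C k hl hl1
  have hL : Tendsto (fun T : ℝ => C / (lam * Real.log T)) atTop (𝓝 0) := by
    have : Tendsto (fun T : ℝ => lam * Real.log T) atTop atTop :=
      Real.tendsto_log_atTop.const_mul_atTop hl
    exact this.const_div_atTop C
  have ha := ((tendsto_const_nhds (x := 1 / lam)).add hL).mul (h1 k)
  have hb := (mrb_aux h2 h3 lam k hl hl1).const_mul 2
  have hc := ha.sub hb
  have e : (1 / lam + 0) * gm k - 2 * (-(lam / 6) * gm k) = (1 / lam + lam / 3) * gm k := by ring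
  rw [e] at hc
  refine hc.congr fun T => ?_
  obtain ⟨-, -, -, -, -, -, hfin⟩ := h3
  rw [finsum_mem_eq_finite_toFinset_sum _ (hfin T), finsum_mem_eq_finite_toFinset_sum _ (hfin T),
    finsum_mem_eq_finite_toFinset_sum _ (hfin T), ← mul_div_assoc, ← mul_div_assoc, ← sub_div,
    Finset.mul_sum, Finset.mul_sum, ← Finset.sum_sub_distrib]
  congr 1
  refine Finset.sum_congr rfl fun γ _ => ?_
  unfold WM
  ring

end Pool.Agent.Lib.MP_6bc78b_nt.MS.GL.H93
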